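import Mathlib
import Pool.Agent.Q83.DN.B

/-!
# MP_0ea415_nt: counterexamples to Littlewood's conjecture do not survive digit noise of dimension 0

Let `α` be ANY real number, `x` any real number, `r ≠ 0`, and let `ξ = 0.X₀X₁X₂…` be a random number
with random digits in base `b`.  Assume only that, given the digits before it, the `n`-th digit takes
each of its `b` values with conditional probability at least `p n`, where the expected number of
windows of length `M` consisting of free digits, `∑ n, p n * p (n + 1) * ... * p (n + M - 1)`, is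
infinite for every `M`.  Then almost surely `β = x + r ξ` satisfies
`liminf q ‖q α‖ ‖q β - γ‖ = 0` for all real `γ` at once (`γ = 0` is Littlewood's conjecture).

The digits may be as good as deterministic: `p n = 1 / log (n + 2)` is allowed, and so are fair
digits in arbitrarily sparse (but longer and longer) windows of places, all other digits being
prescribed.

The proof: if `α` is badly approximable then `{q : q ‖q α‖ ≤ 1}` meets every `[t, C t]`; a window of
digits at the right place steers `q β` modulo one.  This works for every set of integers with this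
property (part 3), for example for the powers of a prime (`p`-adic Littlewood conjecture).
-/

set_option autoImplicit false

open MeasureTheory Filter Topology Finset
open scoped ENNReal

namespace Pool.Agent.Results.MP_0ea415_nt.DigitNoise

/-- the distance to the nearest integer -/
noncomputable def nrm (x : ℝ) : ℝ := |x - round x|

/-- `liminf q ‖q α‖ ‖q β - γ‖ = 0` for all real `γ` -/
def LittlewoodAll (α β : ℝ) : Prop :=
  ∀ γ ε : ℝ, 0 < ε → ∀ N : ℕ, ∃ q : ℕ, N ≤ q ∧ 0 < q ∧ q * nrm (q * α) * nrm (q * β - γ) < ε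

/-- Given the digits before the `n`-th, the `n`-th digit takes each value with conditional
probability at least `p n`. -/
structure Unpredictable {Ω : Type} [MeasurableSpace Ω] {b : ℕ} (P : Measure Ω)
    (X : ℕ → Ω → Fin b) (p : ℕ → ℝ) : Prop where
  meas : ∀ i, Measurable (X i)
  nonneg : ∀ i, 0 ≤ p i
  cond : ∀ (n : ℕ) (w : ℕ → Fin b),
    p n * P.real {ω | ∀ i < n, X i ω = w i} ≤ P.real {ω | ∀ i ≤ n, X i ω = w i}

/-- `∑ n, p n * p (n + 1) * ... * p (n + M - 1) = ∞` for every `M` -/
def Divergent (p : ℕ → ℝ) : Prop := ∀ M : ℕ, ¬ Summable fun n => ∏ i ∈ range M, p (n + i)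

/-- `T` contains arbitrarily long intervals. -/
def Thick (T : Set ℕ) : Prop := ∀ M : ℕ, ∃ n, ∀ i < M, n + i ∈ T

/-- a fair digit in base `b` -/
noncomputable def fair (b : ℕ) : Measure (Fin b) := (b : ℝ≥0∞)⁻¹ • Measure.count

open Classical in
/-- independent digits: fair at the places in `T`, equal to the prescribed digits `d` elsewhere -/
noncomputable def noise {b : ℕ} (d : ℕ → Fin b) (T : Set ℕ) : Measure (ℕ → Fin b) :=
  Measure.infinitePi fun i => if i ∈ T then fair b else Measure.dirac (d i)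

/-- `A` meets `[t, C t]` for all large `t`. -/
def LogDense (A : Set ℕ) : Prop :=
  ∃ C : ℝ, ∀ᶠ t : ℝ in atTop, ∃ q ∈ A, t ≤ (q : ℝ) ∧ (q : ℝ) ≤ C * t

lemma fair_singleton {b : ℕ} (a : Fin b) : fair b {a} = (b : ℝ≥0∞)⁻¹ := by
  simp [fair]

lemma fair_prob {b : ℕ} (hb : 2 ≤ b) : IsProbabilityMeasure (fair b) := by
  constructor
  have h1 : (Measure.count (Set.univ : Set (Fin b))) = (b : ℝ≥0∞) := by
    rw [Measure.count_univ]; simp
  rw [fair, Measure.smul_apply, h1, smul_eq_mul]
  exact ENNReal.inv_mul_cancel (by exact_mod_cast (by omega : b ≠ 0)) (ENNReal.natCast_ne_top b)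

section

variable {b : ℕ} (hb : 2 ≤ b) (d : ℕ → Fin b) (T : Set ℕ)

open Classical in
lemma marg_prob (hb : 2 ≤ b) (i : ℕ) :
    IsProbabilityMeasure (if i ∈ T then fair b else Measure.dirac (d i)) := by
  split_ifs
  · exact fair_prob hb
  · infer_instance

open Classical in
/-- the digits of `noise` are unpredictable, with `p n = 1 / b` for `n ∈ T` and `0` otherwise -/
lemma noise_unp (hb : 2 ≤ b) : IsProbabilityMeasure (noise d T) ∧
    Unpredictable (noise d T) (fun i ω => ω i) (fun i => if i ∈ T then (b : ℝ)⁻¹ else 0) := by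
  have hp : ∀ i, IsProbabilityMeasure (if i ∈ T then fair b else Measure.dirac (d i)) :=
    marg_prob d T hb
  have hprob : IsProbabilityMeasure (noise d T) := by
    unfold noise; infer_instance
  refine ⟨hprob, ⟨fun i => measurable_pi_apply i, fun i => ?_, fun n w => ?_⟩⟩
  · split_ifs <;> positivity
  · have hcyl : ∀ m : ℕ, (noise d T) {ω | ∀ i < m, ω i = w i}
        = ∏ i ∈ range m, (if i ∈ T then fair b else Measure.dirac (d i)) {w i} := by
      intro m
      have : {ω : ℕ → Fin b | ∀ i < m, ω i = w i} = Set.pi (range m : Finset ℕ) fun i => {w i} := by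
        ext ω; simp [Set.mem_pi]
      rw [this, noise, Measure.infinitePi_pi _ fun i _ => measurableSet_singleton _]
    have e1 : {ω : ℕ → Fin b | ∀ i ≤ n, ω i = w i} = {ω | ∀ i < n + 1, ω i = w i} := by
      ext ω; simp
    rw [e1, Measure.real, Measure.real, hcyl, hcyl, Finset.prod_range_succ, ENNReal.toReal_mul,
      mul_comm]
    refine mul_le_mul_of_nonneg_left ?_ ENNReal.toReal_nonneg
    split_ifs with hn
    · rw [fair_singleton]; simp
    · exact ENNReal.toReal_nonneg

lemma noise_off (hb : 2 ≤ b) : ∀ᵐ ω ∂(noise d T), ∀ i ∉ T, ω i = d i := by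
  classical
  have hp : ∀ i, IsProbabilityMeasure (if i ∈ T then fair b else Measure.dirac (d i)) :=
    marg_prob d T hb
  rw [ae_all_iff]
  intro i
  by_cases hi : i ∈ T
  · exact Eventually.of_forall fun ω h => absurd hi h
  · have h1 : (noise d T) {ω : ℕ → Fin b | ω i = d i}ᶜ = 0 := by
      have : {ω : ℕ → Fin b | ω i = d i}ᶜ = Set.pi ({i} : Finset ℕ) fun _ => {d i}ᶜ := by
        ext ω; simp [Set.mem_pi]
      rw [this, noise, Measure.infinitePi_pi _ fun j _ => (measurableSet_singleton _).compl]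
      simp [hi]
    rw [ae_iff]
    refine measure_mono_null ?_ h1
    intro ω hω
    simp only [Set.mem_ofPred_eq, Classical.not_imp] at hω
    exact hω.2

lemma thick_divergent (hb : 2 ≤ b) (hT : Thick T) :
    Divergent (by classical exact fun i => if i ∈ T then (b : ℝ)⁻¹ else 0) := by
  classical
  intro M hsum
  have hbpos : (0 : ℝ) < (b : ℝ)⁻¹ := by positivity
  have h0 := hsum.tendsto_atTop_zero
  have h1 := (h0.eventually (gt_mem_nhds (show (0 : ℝ) < (b : ℝ)⁻¹ ^ M by positivity)))
  obtain ⟨N, hN⟩ := eventually_atTop.1 h1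
  obtain ⟨n, hn⟩ := hT (N + M)
  have h2 := hN (n + N) (by omega)
  have h3 : ∏ i ∈ range M, (if n + N + i ∈ T then (b : ℝ)⁻¹ else 0) = (b : ℝ)⁻¹ ^ M := by
    rw [Finset.prod_congr rfl (fun i hi => if_pos (by
      have := hn (N + i) (by have := Finset.mem_range.1 hi; omega)
      rwa [← add_assoc] at this)), Finset.prod_const, Finset.card_range]
  have h4 : (∏ i ∈ range M, (if n + N + i ∈ T then (b : ℝ)⁻¹ else 0)) < (b : ℝ)⁻¹ ^ M := by
    convert h2
  rw [h3] at h4
  exact lt_irrefl _ h4

end

/-- **Main result.** -/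
theorem result :
    -- 1. Littlewood's conjecture for `x + r ξ`, for every real `α`
    (∀ b : ℕ, 2 ≤ b → ∀ (Ω : Type) [MeasurableSpace Ω] (P : Measure Ω) [IsProbabilityMeasure P]
      (X : ℕ → Ω → Fin b) (p : ℕ → ℝ), Unpredictable P X p → Divergent p →
      ∀ α x r : ℝ, r ≠ 0 →
        ∀ᵐ ω ∂P, LittlewoodAll α (x + r * Real.ofDigits fun i => X i ω)) ∧
    -- 2. fair digits at the places of a thick set only
    (∀ b : ℕ, 2 ≤ b → ∀ (d : ℕ → Fin b) (T : Set ℕ), Thick T → ∀ α x r : ℝ, r ≠ 0 →
      ∀ᵐ ω ∂(noise d T), (∀ i ∉ T, ω i = d i) ∧ LittlewoodAll α (x + r * Real.ofDigits ω)) ∧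
    -- 3. density modulo one along arbitrary sets of integers which meet all `[t, C t]`
    (∀ b : ℕ, 2 ≤ b → ∀ (Ω : Type) [MeasurableSpace Ω] (P : Measure Ω) [IsProbabilityMeasure P]
      (X : ℕ → Ω → Fin b) (p : ℕ → ℝ), Unpredictable P X p → Divergent p →
      ∀ A : Set ℕ, LogDense A → ∀ x r : ℝ, r ≠ 0 →
        ∀ᵐ ω ∂P, ∀ γ ε : ℝ, 0 < ε → ∀ N : ℕ, ∃ q ∈ A, N ≤ q ∧ 0 < q ∧
          nrm (q * (x + r * Real.ofDigits fun i => X i ω) - γ) < ε) := by
  refine ⟨?_, ?_, ?_⟩
  · intro b hb Ω _ P _ X p hX hp α x r hr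
    exact Pool.Agent.Q83.DN.littlewood hb ⟨hX.meas, hX.nonneg, hX.cond⟩ hp α x r hr
  · intro b hb d T hT α x r hr
    classical
    obtain ⟨hprob, hU⟩ := noise_unp d T hb
    have hdiv := thick_divergent T hb hT
    have h1 := Pool.Agent.Q83.DN.littlewood hb (P := noise d T) (X := fun i ω => ω i)
      (p := fun i => if i ∈ T then (b : ℝ)⁻¹ else 0)
      ⟨hU.meas, fun i => by convert hU.nonneg i, fun n w => by convert hU.cond n w⟩
      (by intro M; convert hdiv M) α x r hr
    filter_upwards [h1, noise_off d T hb] with ω h1 h2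
    exact ⟨h2, h1⟩
  · intro b hb Ω _ P _ X p hX hp A hA x r hr
    exact Pool.Agent.Q83.DN.dense hb ⟨hX.meas, hX.nonneg, hX.cond⟩ hp hA x r hr

end Pool.Agent.Results.MP_0ea415_nt.DigitNoise
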