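import Mathlib
import Pool.Agent.Q64.IF.LW2

/-! # MP_0ea415_nt: limits and reduced bases of a counterexample to Littlewood's conjecture

Let `(α, β)` be a counterexample: `q ⟨qα⟩ ⟨qβ⟩` is bounded away from zero for large `q`.

1. Let `h` be a limit of the matrices `diag(a) g γ`, where `g` is the matrix of the forms `x`,
   `α x - y`, `β x - z`, `a` is positive of product one with `a 1, a 2 → ∞`, and `γ` is integral of
   determinant `±1`. No one or two of the rows of `h` span a subspace which is invariant under a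
   rational matrix that is not scalar.
2. For an integral matrix `P` of determinant `±1` with columns `p 0, p 1, p 2` consider the basis
   `p 0 + α p 1 + β p 2`, `p 1`, `p 2` of the space. It is `(C, N)`-reduced if the product of the
   lengths is at most `C` (and it is at least a positive constant) and `p 1`, `p 2` have length at
   least `N`. The directions of the vectors of reduced bases, `C` fixed, `N → ∞`, stay away from the
   direction of every vector whose coordinates are in a real field of degree at most three over `ℚ`.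
3. Let `σ` be a rational matrix which is not scalar. For every `C` there is `N` such that only
   finitely many integral matrices `Q` which commute with `σ` connect two `(C, N)`-reduced bases
   `P` and `Q P`. (In particular only finitely many powers of a matrix of infinite order do.) -/

set_option autoImplicit false

open Filter Topology

namespace Pool.Agent.Results.MP_0ea415_nt.InvariantSpans

/-- `q ⟨qα⟩ ⟨qβ⟩` -/
noncomputable def littlewood (α β : ℝ) (q : ℕ) : ℝ :=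
  (q : ℝ) * |(q : ℝ) * α - (round ((q : ℝ) * α) : ℝ)|
    * |(q : ℝ) * β - (round ((q : ℝ) * β) : ℝ)|

/-- The limits of the matrices `diag(a) g γ` with `g` the matrix of `x`, `α x - y`, `β x - z`, where
`a` is positive of product one, `γ` integral of determinant `±1`, and `a 1, a 2 → ∞`. -/
def Limits (α β : ℝ) : Set (Matrix (Fin 3) (Fin 3) ℝ) :=
  {h | ∀ N : ℕ, h ∈ closure {h' | ∃ (a : Fin 3 → ℝ) (γ : Matrix (Fin 3) (Fin 3) ℤ),
    (∀ i, 0 < a i) ∧ ∏ i, a i = 1 ∧ (N : ℝ) ≤ a 1 ∧ (N : ℝ) ≤ a 2 ∧ |γ.det| = 1 ∧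
    h' = Matrix.diagonal a * !![1, 0, 0; α, -1, 0; β, 0, -1] * γ.map (Int.cast : ℤ → ℝ)}}

/-- The span of the rows of `h` with index in `I` is mapped into itself by `l ↦ l σ`. -/
def InvariantSpan (h : Matrix (Fin 3) (Fin 3) ℝ) (I : Finset (Fin 3))
    (σ : Matrix (Fin 3) (Fin 3) ℚ) : Prop :=
  ∀ i ∈ I, Matrix.vecMul (h i) (σ.map (Rat.cast : ℚ → ℝ)) ∈
    Submodule.span ℝ ((fun i => h i) '' (I : Set (Fin 3)))

/-- the vectors `p 0 + α p 1 + β p 2`, `p 1`, `p 2`, where the `p j` are the columns of `P` -/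
noncomputable def basis (α β : ℝ) (P : Matrix (Fin 3) (Fin 3) ℤ) : Fin 3 → Fin 3 → ℝ :=
  ![fun i => P i 0 + α * P i 1 + β * P i 2, fun i => P i 1, fun i => P i 2]

/-- The basis of `P` is `(C, N)`-reduced (the norm is the maximum norm). -/
def Reduced (α β C N : ℝ) (P : Matrix (Fin 3) (Fin 3) ℤ) : Prop :=
  |P.det| = 1 ∧ ∏ j, ‖basis α β P j‖ ≤ C ∧ N ≤ ‖basis α β P 1‖ ∧ N ≤ ‖basis α β P 2‖

lemma limits_eq (α β : ℝ) : Limits α β = H715R2.YY (H715R2.LLm α β) := by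
  ext h
  unfold Limits H715R2.YY
  rw [Set.mem_iInter, Set.mem_ofPred_eq]
  refine forall_congr' fun N => ?_
  have h1 : {h' : Matrix (Fin 3) (Fin 3) ℝ | ∃ (a : Fin 3 → ℝ) (γ : Matrix (Fin 3) (Fin 3) ℤ),
      (∀ i, 0 < a i) ∧ ∏ i, a i = 1 ∧ (N : ℝ) ≤ a 1 ∧ (N : ℝ) ≤ a 2 ∧ |γ.det| = 1 ∧
      h' = Matrix.diagonal a * !![1, 0, 0; α, -1, 0; β, 0, -1] * γ.map (Int.cast : ℤ → ℝ)} =
      H715R2.OrbN (H715R2.LLm α β) N := by
    ext h'
    constructor
    · rintro ⟨a, γ, h0, h1, h2, h3, h4, rfl⟩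
      exact ⟨a, γ, h0, h1, h2, h3, Int.isUnit_iff_abs_eq.2 h4, rfl⟩
    · rintro ⟨a, γ, h0, h1, h2, h3, h4, rfl⟩
      exact ⟨a, γ, h0, h1, h2, h3, Int.isUnit_iff_abs_eq.1 h4, rfl⟩
  rw [h1]

lemma rQ_eq (σ : Matrix (Fin 3) (Fin 3) ℚ) :
    σ.map (Rat.cast : ℚ → ℝ) = Pool.Agent.Q64.IF.rQ 3 σ := by
  ext i j
  rw [Pool.Agent.Q64.IF.rQ_apply]
  rfl

theorem result (α β : ℝ)
    (hc : ∃ ε : ℝ, 0 < ε ∧ ∃ N : ℕ, ∀ q : ℕ, N ≤ q → 0 < q → ε ≤ littlewood α β q) :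
    -- 1. limits
    (∀ h ∈ Limits α β, ∀ I : Finset (Fin 3), I.Nonempty → I ≠ Finset.univ →
      ∀ σ : Matrix (Fin 3) (Fin 3) ℚ, (∀ c : ℚ, σ ≠ c • 1) → ¬ InvariantSpan h I σ) ∧
    -- 2. directions of reduced bases
    (∀ (K : IntermediateField ℚ ℝ) [FiniteDimensional ℚ K], Module.finrank ℚ K ≤ 3 →
      ∀ v : Fin 3 → ℝ, (∀ i, v i ∈ K) → ∀ (C : ℝ) (j : Fin 3), ∃ N : ℕ, 0 < N ∧
        ∀ P : Matrix (Fin 3) (Fin 3) ℤ, Reduced α β C N P → ∀ t : ℝ,
          1 / N * ‖basis α β P j‖ ≤ ‖basis α β P j - t • v‖) ∧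
    -- 3. links between reduced bases
    (∀ σ : Matrix (Fin 3) (Fin 3) ℚ, (∀ c : ℚ, σ ≠ c • 1) → ∀ C : ℝ, ∃ N : ℕ,
      {Q : Matrix (Fin 3) (Fin 3) ℤ |
        Q.map (Int.cast : ℤ → ℚ) * σ = σ * Q.map (Int.cast : ℤ → ℚ) ∧
        ∃ P : Matrix (Fin 3) (Fin 3) ℤ, Reduced α β C N P ∧ Reduced α β C N (Q * P)}.Finite) := by
  obtain ⟨ε, hε, N, hN⟩ := hc
  obtain ⟨ν, hν0, hν⟩ := H715R2.exists_nu hε (N := N) hN
  refine ⟨?_, ?_, ?_⟩
  · intro h hh I hI hI' σ hσ hinv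
    rw [limits_eq] at hh
    refine Pool.Agent.Q64.IF.lw_core hν0 hν hh I hI hI' σ hσ fun i hi => ?_
    rw [← rQ_eq]
    exact hinv i hi
  · intro K _ hK v hv C j
    obtain ⟨σ, hσ, θ, hθ⟩ := Pool.Agent.Q64.IF.exists_sigma K hK v hv
    exact Pool.Agent.Q64.IF.lw_dir hν0 hν σ hσ v θ hθ C j
  · intro σ hσ C
    obtain ⟨N, hN⟩ := Pool.Agent.Q64.IF.lw_links hν0 hν σ hσ C
    refine ⟨N, hN.subset ?_⟩
    rintro Q ⟨h1, P, h2, h3⟩
    refine ⟨?_, P, h2, h3⟩
    have h4 : H715R2.zR Q = Pool.Agent.Q64.IF.rQ 3 (Q.map (Int.cast : ℤ → ℚ)) := by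
      ext i j
      rw [Pool.Agent.Q64.IF.rQ_apply]
      simp [H715R2.zR]
    rw [h4, ← map_mul, h1, map_mul]

end Pool.Agent.Results.MP_0ea415_nt.InvariantSpans
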