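import Mathlib
import Pool.Agent.Q77.Lw.Quad

/-!
# Littlewood's conjecture for a quadratic `α` and arbitrary `β`: boundedly many exceptions in each
class of numbers whose expansions in base `s` differ at finitely many, or at very sparse, places

Let `α` be a real quadratic irrational and `s ≥ 2`. Call `y` exceptional (for `η > 0`) if for some
real `γ` only finitely many `q` satisfy `q ‖q α‖ ‖q y - γ‖ < η`; if `(α, y)` violates Littlewood's
conjecture then `y` is exceptional for some `η`. For EVERY real `β` at most `C / η ^ 6` of the numbers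
`β + r`, `r ∈ ℤ[1/s]`, `0 ≤ r < 1`, are exceptional. The same bound holds for the numbers
`β + ∑ s ^ (- n - 1)`, the sum over `n ∈ A`, where `A` runs through all subsets of a very sparse set.
So for every `β` all but countably many of these uncountably many numbers `y` satisfy the conjecture
together with all quadratic irrationals `α` and all shifts `γ`. For subsets of an arbitrary infinite
set of places this holds almost surely.

Proof: the Lucas sequences `U` of the units of the field, with trace `2` modulo `s ^ 2`, have few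
coincidences modulo the powers of `s` (`U (2 i) - U (2 j) = V (i + j) U (i - j)`, and the exact power
of `p` in `U k` is the one in `k`), so the second moment over `k < s ^ n` of the exponential sums
`∑ e (h U (2 m) (β + k / s ^ n))`, `m < N`, is at most `C |h| N ^ 2` for `N ≥ s ^ n`.
-/

set_option autoImplicit false

open Filter Set MeasureTheory
open scoped ENNReal

namespace Pool.Agent.Results.MP_0ea415_nt.QuadraticShifts

/-- a real quadratic irrational -/
def Quadratic (α : ℝ) : Prop :=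
  Irrational α ∧ ∃ A B C : ℤ, A ≠ 0 ∧ (A : ℝ) * α ^ 2 + B * α + C = 0

/-- the distance to the nearest integer -/
noncomputable def nrm (x : ℝ) : ℝ := |x - round x|

/-- for some `γ` only finitely many `q` satisfy `q ‖q α‖ ‖q y - γ‖ < η` -/
def Exceptional (η α y : ℝ) : Prop :=
  ∃ γ : ℝ, ∃ N : ℕ, ∀ q : ℕ, N ≤ q → η ≤ q * nrm (q * α) * nrm (q * y - γ)

/-- Littlewood's conjecture for the pair `(α, y)`, in the inhomogeneous form with all shifts `γ` of
`q y` (`γ = 0` is Littlewood's conjecture) -/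
def Littlewood (α y : ℝ) : Prop :=
  ∀ γ η : ℝ, 0 < η → ∀ N : ℕ, ∃ q : ℕ, N ≤ q ∧ 0 < q ∧ q * nrm (q * α) * nrm (q * y - γ) < η

/-- the sum of the `s ^ (- n - 1)`, `n ∈ A`: the number with the digit `1` at the places `n + 1`,
`n ∈ A`, in base `s`, and `0` elsewhere -/
noncomputable def z (s : ℕ) (A : Set ℕ) : ℝ :=
  ∑' n, A.indicator (fun n : ℕ => ((s : ℝ) ^ (n + 1))⁻¹) n

/-- superexponential growth -/
def VerySparse (P : Set ℕ) : Prop := ∀ m ∈ P, ∀ n ∈ P, m < n → (m + 2) ^ (m + 2) ≤ n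

/-- one toss of a fair coin -/
noncomputable def coin : Measure Bool :=
  (2⁻¹ : ℝ≥0∞) • Measure.dirac true + (2⁻¹ : ℝ≥0∞) • Measure.dirac false

lemma finite_of_card_le {α : Type*} (S : Set α) (K : ℝ)
    (h : ∀ F : Finset α, (F : Set α) ⊆ S → (F.card : ℝ) ≤ K) :
    S.Finite ∧ (S.ncard : ℝ) ≤ K := by
  have hfin : S.Finite := by
    by_contra hinf
    obtain ⟨m, hm⟩ := exists_nat_gt K
    obtain ⟨F, hF, hFm⟩ := (show S.Infinite from hinf).exists_subset_card_eq m
    have := h F hF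
    rw [hFm] at this
    linarith
  refine ⟨hfin, ?_⟩
  have h1 := h hfin.toFinset (by simp)
  rwa [← Set.ncard_eq_toFinset_card S hfin] at h1

lemma nrm_nonneg (x : ℝ) : 0 ≤ nrm x := abs_nonneg _

/-- exceptional numbers along a good sequence of denominators -/
lemma exc_miss {α : ℝ} {a : ℕ → ℤ} {C₀ : ℝ} (hC : 0 < C₀) (h1 : ∀ m : ℕ, (m : ℤ) ≤ a m)
    (h2 : ∀ m, (a m : ℝ) * |a m * α - round (a m * α)| ≤ C₀) {η y : ℝ}
    (h : Exceptional η α y) : Pool.Agent.Q77.Lw.EvMiss a (η / C₀) y := by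
  obtain ⟨γ, N, hN⟩ := h
  refine ⟨γ, N, fun m hm k => ?_⟩
  have h3 := h1 m
  have h4 : 0 ≤ a m := by omega
  have h5 : (((a m).toNat : ℕ) : ℝ) = (a m : ℝ) := by
    have := Int.toNat_of_nonneg h4
    exact_mod_cast congrArg (Int.cast : ℤ → ℝ) this
  have h6 := hN (a m).toNat (by omega)
  rw [h5] at h6
  have h7 : nrm (a m * y - γ) ≤ |(a m : ℝ) * y - γ - k| := round_le _ k
  have h8 : η ≤ C₀ * |(a m : ℝ) * y - γ - k| := by
    refine h6.trans ?_
    apply mul_le_mul (h2 m) h7 (nrm_nonneg _) hC.le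
  rw [div_le_iff₀ hC]
  linarith

lemma not_littlewood {α y : ℝ} (h : ¬ Littlewood α y) :
    ∃ j : ℕ, Exceptional (1 / ((j : ℝ) + 1)) α y := by
  unfold Littlewood at h
  push Not at h
  obtain ⟨γ, η, hη, N, hN⟩ := h
  obtain ⟨j, hj⟩ := exists_nat_one_div_lt hη
  refine ⟨j, γ, N + 1, fun q hq => hj.le.trans (hN q (by omega) (by omega))⟩

lemma quadratic_countable : {α : ℝ | Quadratic α}.Countable := by
  have h1 : {α : ℝ | IsAlgebraic ℤ α}.Countable := Algebraic.countable ℤ ℝ
  refine h1.mono ?_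
  rintro α ⟨-, A, B, C, hA, h⟩
  refine ⟨Polynomial.C A * Polynomial.X ^ 2 + Polynomial.C B * Polynomial.X + Polynomial.C C, ?_, ?_⟩
  · intro h0
    have h2 := Polynomial.leadingCoeff_quadratic (b := B) (c := C) hA
    rw [h0, Polynomial.leadingCoeff_zero] at h2
    exact hA h2.symm
  · simpa using h

/-- **Quadratic `α`, arbitrary `β`.** -/
theorem result :
    -- (1) at most `C / η ^ 6` exceptional elements in every class modulo `ℤ[1/s]`
    (∀ α : ℝ, Quadratic α → ∀ s : ℕ, 2 ≤ s → ∃ C : ℝ, ∀ β η : ℝ, 0 < η →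
      {r : ℝ | 0 ≤ r ∧ r < 1 ∧ (∃ (n : ℕ) (k : ℤ), r = k / (s : ℝ) ^ n) ∧
        Exceptional η α (β + r)}.Finite ∧
      ({r : ℝ | 0 ≤ r ∧ r < 1 ∧ (∃ (n : ℕ) (k : ℤ), r = k / (s : ℝ) ^ n) ∧
        Exceptional η α (β + r)}.ncard : ℝ) ≤ C / η ^ 6) ∧
    -- (2) the same for very sparse changes of digits
    (∀ α : ℝ, Quadratic α → ∀ s : ℕ, 2 ≤ s → ∃ C : ℝ, ∀ P : Set ℕ, P.Infinite → VerySparse P →
      ∀ β η : ℝ, 0 < η →
        {A : Set ℕ | A ⊆ P ∧ Exceptional η α (β + z s A)}.Finite ∧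
        ({A : Set ℕ | A ⊆ P ∧ Exceptional η α (β + z s A)}.ncard : ℝ) ≤ C / η ^ 6) ∧
    -- (3) all but countably many very sparse changes of digits lead to a number for which the
    -- conjecture holds, with all quadratic `α` at once
    (∀ s : ℕ, 2 ≤ s → ∀ P : Set ℕ, VerySparse P → ∀ β : ℝ,
      {A : Set ℕ | A ⊆ P ∧ ¬ ∀ α : ℝ, Quadratic α → Littlewood α (β + z s A)}.Countable) ∧
    -- (4) random changes of digits at an arbitrary infinite set of places
    (∀ s : ℕ, 2 ≤ s → ∀ P : Set ℕ, P.Infinite → ∀ β : ℝ,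
      ∀ᵐ ω ∂(Measure.infinitePi fun _ : ℕ => coin),
        ∀ α : ℝ, Quadratic α → Littlewood α (β + z s {n | n ∈ P ∧ ω n = true})) := by
  have h2 : ∀ α : ℝ, Quadratic α → ∀ s : ℕ, 2 ≤ s → ∃ C : ℝ, ∀ P : Set ℕ, P.Infinite →
      VerySparse P → ∀ β η : ℝ, 0 < η →
        {A : Set ℕ | A ⊆ P ∧ Exceptional η α (β + z s A)}.Finite ∧
        ({A : Set ℕ | A ⊆ P ∧ Exceptional η α (β + z s A)}.ncard : ℝ) ≤ C / η ^ 6 := by
    rintro α ⟨hirr, hq⟩ s hs
    obtain ⟨a, g, E, C₀, hg, hC, hF, hE, ha1, ha2⟩ :=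
      Pool.Agent.Q77.Lw.quad_seq α hirr hq s (by omega)
    refine ⟨2048 * g * C₀ ^ 6, fun P hP hsp β η hη => ?_⟩
    apply finite_of_card_le
    intro F hFs
    have h6 := Pool.Agent.Q77.Lw.sparse_card a s g E hs hg hF hE P hP hsp β (η / C₀)
      (by positivity) F (fun A hA => (hFs hA).1) (fun A hA => exc_miss hC ha1 ha2 (hFs hA).2)
    refine h6.trans (le_of_eq ?_)
    field_simp
    ring
  refine ⟨?_, h2, ?_, ?_⟩
  · rintro α ⟨hirr, hq⟩ s hs
    obtain ⟨a, g, E, C₀, hg, hC, hF, hE, ha1, ha2⟩ :=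
      Pool.Agent.Q77.Lw.quad_seq α hirr hq s (by omega)
    refine ⟨32 * g * C₀ ^ 6, fun β η hη => ?_⟩
    apply finite_of_card_le
    intro F hFs
    have h6 := Pool.Agent.Q77.Lw.class_card a s g (by omega) hg hF β (η / C₀) (by positivity) F
      (fun r hr => ⟨(hFs hr).1, (hFs hr).2.1, (hFs hr).2.2.1, exc_miss hC ha1 ha2 (hFs hr).2.2.2⟩)
    refine h6.trans (le_of_eq ?_)
    field_simp
  · intro s hs P hsp β
    rcases P.finite_or_infinite with hfin | hinf
    · exact (hfin.finite_subsets.subset fun A hA => hA.1).countable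
    · have hsub : {A : Set ℕ | A ⊆ P ∧ ¬ ∀ α : ℝ, Quadratic α → Littlewood α (β + z s A)} ⊆
          ⋃ α ∈ {α : ℝ | Quadratic α}, ⋃ j : ℕ,
            {A : Set ℕ | A ⊆ P ∧ Exceptional (1 / ((j : ℝ) + 1)) α (β + z s A)} := by
        rintro A ⟨hA, hbad⟩
        push Not at hbad
        obtain ⟨α, hα, hL⟩ := hbad
        obtain ⟨j, hj⟩ := not_littlewood hL
        simp only [mem_iUnion]
        exact ⟨α, hα, j, hA, hj⟩
      refine Set.Countable.mono hsub ?_
      apply Set.Countable.biUnion quadratic_countable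
      intro α hα
      apply Set.countable_iUnion
      intro j
      obtain ⟨C, hC⟩ := h2 α hα s hs
      exact (hC P hinf hsp β (1 / ((j : ℝ) + 1)) (by positivity)).1.countable
  · intro s hs P hP β
    have hall : ∀ᵐ ω ∂(Measure.infinitePi fun _ : ℕ => coin), ∀ α ∈ {α : ℝ | Quadratic α},
        Littlewood α (β + z s {n | n ∈ P ∧ ω n = true}) := by
      rw [ae_ball_iff quadratic_countable]
      rintro α ⟨hirr, hq⟩
      obtain ⟨a, g, E, C₀, hg, hC, hF, hE, ha1, ha2⟩ :=
        Pool.Agent.Q77.Lw.quad_seq α hirr hq s (by omega)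
      filter_upwards [Pool.Agent.Q77.Lw.random a s g hs hg hF P hP β] with ω hω
      by_contra hL
      obtain ⟨j, hj⟩ := not_littlewood hL
      exact hω (1 / ((j : ℝ) + 1) / C₀) (by positivity) (exc_miss hC ha1 ha2 hj)
    filter_upwards [hall] with ω hω α hα
    exact hω α hα

end Pool.Agent.Results.MP_0ea415_nt.QuadraticShifts
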