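import Mathlib
import Pool.Agent.Q172.LwRec.Conv

set_option autoImplicit false

/-! # MP_0ea415_nt: Littlewood's conjecture for a quadratic `α` and for `β` whose digits satisfy
long reciprocal linear recurrences.

Let `ε > 1`, `ε² - tε + 1 = 0` with an integer `t ≥ 3`, let `α = a + bε` with rational `a, b`
(every real quadratic irrational is of this form for a suitable `ε`), and let
`β = ∑ d_k ε^{-k}` with bounded integers `d_k` (every real number has such expansions).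

(1) If for every `K` there is a recurrence `∑_{i ≤ ℓ} c_i d_{k+i} = 0`, valid for `n` consecutive
values of `k`, with integer coefficients, not all zero, such that `c_{ℓ-i} = c_i` for all `i`, or
`c_{ℓ-i} = -c_i` for all `i`, and `2n ≥ ℓ + 6 log_ε (∑ |c_i|) + K`, then Littlewood's conjecture
holds for `(α, β)`, with a power saving if the recurrences are near the beginning.

(2) The same for arbitrary integer recurrences, even if the right hand side `0` is replaced by an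
arbitrary string which is mirror symmetric or mirror antisymmetric on the window, if
`n ≥ 2ℓ + 6 log_ε (∑ |c_i|) + K`.

(3) The same if for some `θ > 0` there are arbitrarily large `N` and windows for which the
symmetrised Hankel matrix `(d_{s+k+N-i} + d_{s+k+N+i})`, `0 ≤ k < n`, `0 ≤ i ≤ N`,
`n ≥ N + (4/θ) log_ε N`, has rank at most `(1-θ) N`.

(4) The same if on windows of length `W` the digits are sums of real strings with periods (up to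
sign) `ℓ_1, …, ℓ_r`, and `2W - 3 ∑ (ℓ_j + 2)` is unbounded.

(5) The same if a mirror symmetric or antisymmetric string is added, and `W - 3 ∑ (ℓ_j + 2)` is
unbounded. -/

namespace Pool.Agent.Results.MP_0ea415_nt.ReciprocalRecurrences

/-- Littlewood's conjecture for the pair `(α, β)` (the form of the frozen statement). -/
def Littlewood (α β : ℝ) : Prop :=
  ∀ η : ℝ, 0 < η → ∀ N : ℕ, ∃ q : ℕ, N ≤ q ∧ 0 < q ∧
    (q : ℝ) * |(q : ℝ) * α - (round ((q : ℝ) * α) : ℝ)|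
      * |(q : ℝ) * β - (round ((q : ℝ) * β) : ℝ)| < η

/-- `q^{1+η} ‖qα‖ ‖qβ‖ < 1` for some `η > 0` and arbitrarily large `q`. -/
def PowerSaving (α β : ℝ) : Prop :=
  ∃ η : ℝ, 0 < η ∧ ∀ N : ℕ, ∃ q : ℕ, N ≤ q ∧ 0 < q ∧
    (q : ℝ) ^ (1 + η) * |(q : ℝ) * α - (round ((q : ℝ) * α) : ℝ)|
      * |(q : ℝ) * β - (round ((q : ℝ) * β) : ℝ)| < 1

/-- `∑_{i ≤ ℓ} c_i d_{k+i}` -/
def lin (ℓ : ℕ) (c : ℕ → ℤ) (d : ℕ → ℤ) (k : ℕ) : ℤ :=
  ∑ i ∈ Finset.range (ℓ + 1), c i * d (k + i)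

/-- `∑_{i ≤ ℓ} |c_i|` (it is positive if and only if `c_0, …, c_ℓ` are not all zero) -/
def height (ℓ : ℕ) (c : ℕ → ℤ) : ℤ := ∑ i ∈ Finset.range (ℓ + 1), |c i|

/-- `c_{ℓ-i} = c_i` for all `i ≤ ℓ`, or `c_{ℓ-i} = -c_i` for all `i ≤ ℓ` -/
def Reciprocal (ℓ : ℕ) (c : ℕ → ℤ) : Prop :=
  ∃ σ : ℤ, (σ = 1 ∨ σ = -1) ∧ ∀ i, i ≤ ℓ → c (ℓ - i) = σ * c i

/-- the symmetrised Hankel matrix `(d_{s+k+N-i} + d_{s+k+N+i})`, `0 ≤ k < n`, `0 ≤ i ≤ N` -/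
def symHankel (d : ℕ → ℤ) (s n N : ℕ) : Matrix (Fin n) (Fin (N + 1)) ℚ :=
  Matrix.of fun k i => (d (s + k + (N - i)) : ℚ) + (d (s + k + (N + i)) : ℚ)

theorem result (t : ℤ) (ε : ℝ) (ht : 3 ≤ t) (h1 : 1 < ε) (hq : ε ^ 2 - t * ε + 1 = 0)
    (a b : ℚ) (α : ℝ) (hα : α = a + b * ε)
    (d : ℕ → ℤ) (hd : ∃ B : ℤ, ∀ k, |d k| ≤ B) (β : ℝ)
    (hβ : β = ∑' k : ℕ, (d k : ℝ) * ε⁻¹ ^ k) :
    -- (1) reciprocal recurrences
    ((∀ K : ℝ, ∃ (ℓ s n : ℕ) (c : ℕ → ℤ), 0 < height ℓ c ∧ Reciprocal ℓ c ∧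
        (∀ k, s ≤ k → k < s + n → lin ℓ c d k = 0) ∧
        (ℓ : ℝ) + 6 * Real.logb ε (height ℓ c) + K ≤ 2 * n) → Littlewood α β) ∧
    ((∃ κ : ℝ, 0 < κ ∧ ∀ K : ℝ, ∃ (ℓ s n : ℕ) (c : ℕ → ℤ), K ≤ n ∧ 0 < height ℓ c ∧
        Reciprocal ℓ c ∧ (∀ k, s ≤ k → k < s + n → lin ℓ c d k = 0) ∧
        (ℓ : ℝ) + 6 * Real.logb ε (height ℓ c) + κ * (s + n) ≤ 2 * n) → PowerSaving α β) ∧
    -- (2) arbitrary recurrences with a mirror symmetric or antisymmetric right hand side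
    ((∀ K : ℝ, ∃ (ℓ s n : ℕ) (c : ℕ → ℤ) (σ : ℤ), 0 < height ℓ c ∧ (σ = 1 ∨ σ = -1) ∧
        (∀ k, s ≤ k → k < s + n → lin ℓ c d (2 * s + n - 1 - k) = σ * lin ℓ c d k) ∧
        2 * (ℓ : ℝ) + 6 * Real.logb ε (height ℓ c) + K ≤ n) → Littlewood α β) ∧
    ((∃ κ : ℝ, 0 < κ ∧ ∀ K : ℝ, ∃ (ℓ s n : ℕ) (c : ℕ → ℤ) (σ : ℤ), K ≤ n ∧
        0 < height ℓ c ∧ (σ = 1 ∨ σ = -1) ∧
        (∀ k, s ≤ k → k < s + n → lin ℓ c d (2 * s + n - 1 - k) = σ * lin ℓ c d k) ∧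
        2 * (ℓ : ℝ) + 6 * Real.logb ε (height ℓ c) + κ * (s + n) ≤ n) → PowerSaving α β) ∧
    -- (3) symmetrised Hankel matrices of small rank
    (∀ θ : ℝ, 0 < θ → θ < 1 →
      (∀ K : ℕ, ∃ N s n : ℕ, K ≤ N ∧ (N : ℝ) + 4 / θ * Real.logb ε N ≤ n ∧
        ((symHankel d s n N).rank : ℝ) ≤ (1 - θ) * N) → Littlewood α β) ∧
    -- (4) sums of locally periodic strings
    ((∀ K : ℕ, ∃ (r s W : ℕ) (ℓ : Fin r → ℕ) (σ : Fin r → ℤ) (v : Fin r → ℕ → ℝ),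
        (∀ j, 0 < ℓ j) ∧ (∀ j, σ j = 1 ∨ σ j = -1) ∧
        (∀ k, s ≤ k → k < s + W → (d k : ℝ) = ∑ j, v j k) ∧
        (∀ j k, s ≤ k → k + ℓ j < s + W → v j (k + ℓ j) = σ j * v j k) ∧
        3 * (∑ j, (ℓ j + 2)) + K ≤ 2 * W) → Littlewood α β) ∧
    -- (5) a mirror symmetric or antisymmetric string plus locally periodic strings
    ((∀ K : ℕ, ∃ (r s W : ℕ) (ℓ : Fin r → ℕ) (σ : Fin r → ℤ) (v : Fin r → ℕ → ℝ)
        (u : ℕ → ℝ) (τ : ℤ),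
        (∀ j, 0 < ℓ j) ∧ (∀ j, σ j = 1 ∨ σ j = -1) ∧ (τ = 1 ∨ τ = -1) ∧
        (∀ k, s ≤ k → k < s + W → (d k : ℝ) = u k + ∑ j, v j k) ∧
        (∀ k, s ≤ k → k < s + W → u (2 * s + W - 1 - k) = τ * u k) ∧
        (∀ j k, s ≤ k → k + ℓ j < s + W → v j (k + ℓ j) = σ j * v j k) ∧
        3 * (∑ j, (ℓ j + 2)) + K ≤ W) → Littlewood α β) := by
  obtain ⟨B, hB⟩ := hd
  have hb : H389R2.LC.Base t ε := ⟨ht, h1, hq⟩
  have hε : 0 < ε := lt_trans one_pos h1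
  have hBr : ∀ k, |(d k : ℝ)| ≤ (B : ℝ) := by
    intro k
    have := hB k
    exact_mod_cast this
  have hc : 0 < a.den * b.den := Nat.mul_pos a.den_pos b.den_pos
  have hαc : ((a.den * b.den : ℕ) : ℝ) * α
      = ((a.num * b.den : ℤ) : ℝ) + ((b.num * a.den : ℤ) : ℝ) * ε := by
    have ha : (a.den : ℝ) * (a : ℝ) = a.num := by
      have := Rat.mul_den_eq_num a
      have h2 : ((a * a.den : ℚ) : ℝ) = ((a.num : ℚ) : ℝ) := by rw [this]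
      push_cast at h2
      linarith
    have hb' : (b.den : ℝ) * (b : ℝ) = b.num := by
      have := Rat.mul_den_eq_num b
      have h2 : ((b * b.den : ℚ) : ℝ) = ((b.num : ℚ) : ℝ) := by rw [this]
      push_cast at h2
      linarith
    rw [hα]
    push_cast
    linear_combination (b.den : ℝ) * ha + (a.den : ℝ) * ε * hb'
  have hps : (∃ η : ℝ, 0 < η ∧ ∀ N : ℕ, ∃ q : ℕ, N ≤ q ∧ 0 < q ∧
      (q : ℝ) ^ η * H389R2.LC.L α β q < 1) → PowerSaving α β := by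
    rintro ⟨η, hη, h⟩
    refine ⟨η, hη, fun N => ?_⟩
    obtain ⟨q, h2, h3, h4⟩ := h N
    refine ⟨q, h2, h3, ?_⟩
    have hq' : (0 : ℝ) < q := by exact_mod_cast h3
    rw [Real.rpow_add hq', Real.rpow_one]
    unfold H389R2.LC.L at h4
    calc _ = (q : ℝ) ^ η * ((q : ℝ) * |(q : ℝ) * α - (round ((q : ℝ) * α) : ℝ)|
          * |(q : ℝ) * β - (round ((q : ℝ) * β) : ℝ)|) := by ring
      _ < 1 := h4
  -- logarithmic form of the hypotheses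
  have hlog : ∀ (K : ℝ) (x m : ℕ) (H : ℝ), 1 ≤ H →
      (x : ℝ) + 6 * Real.logb ε H + Real.logb ε (max K 1) ≤ m →
      K * H ^ 6 * ε ^ x ≤ ε ^ m := by
    intro K x m H hH h
    have h2 := Q172.LwRec.log_form hb (x := (x : ℝ)) (y := Real.logb ε (max K 1)) hH h
    rw [Real.rpow_natCast, Real.rpow_logb hε (ne_of_gt h1) (lt_of_lt_of_le one_pos (le_max_right _ _))] at h2
    have h3 : 0 < H ^ 6 * ε ^ x := by positivity
    calc K * H ^ 6 * ε ^ x = (H ^ 6 * ε ^ x) * K := by ring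
      _ ≤ (H ^ 6 * ε ^ x) * max K 1 := mul_le_mul_of_nonneg_left (le_max_left _ _) h3.le
      _ ≤ ε ^ m := h2
  have hH1 : ∀ (ℓ : ℕ) (c : ℕ → ℤ), 0 < height ℓ c → (1 : ℝ) ≤ (height ℓ c : ℝ) := by
    intro ℓ c h
    have h2 : (1 : ℤ) ≤ height ℓ c := h
    exact_mod_cast h2
  have hn1 : ∀ (ℓ : ℕ) (c : ℕ → ℤ), (Q172.LwRec.n1 (Q172.LwRec.polyOf ℓ c)) = height ℓ c :=
    fun ℓ c => Q172.LwRec.polyOf_n1 ℓ c
  have hrel : ∀ (ℓ s n : ℕ) (c : ℕ → ℤ), (∀ k, s ≤ k → k < s + n → lin ℓ c d k = 0) →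
      ∀ k : ℤ, s ≤ k → k < s + n →
        Q172.LwRec.act (Q172.LwRec.polyOf ℓ c) (H389R2.LC.ext d) k = 0 := by
    intro ℓ s n c h k hk1 hk2
    obtain ⟨x, rfl⟩ : ∃ x : ℕ, (x : ℤ) = k := ⟨k.toNat, by omega⟩
    rw [Q172.LwRec.polyOf_act]
    exact h x (by omega) (by omega)
  have hmir : ∀ (ℓ s n : ℕ) (c : ℕ → ℤ) (σ : ℤ),
      (∀ k, s ≤ k → k < s + n → lin ℓ c d (2 * s + n - 1 - k) = σ * lin ℓ c d k) →
      ∀ k : ℤ, s ≤ k → k < s + n →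
        Q172.LwRec.act (Q172.LwRec.polyOf ℓ c) (H389R2.LC.ext d) (2 * s + n - 1 - k)
          = σ * Q172.LwRec.act (Q172.LwRec.polyOf ℓ c) (H389R2.LC.ext d) k := by
    intro ℓ s n c σ h k hk1 hk2
    obtain ⟨x, rfl⟩ : ∃ x : ℕ, (x : ℤ) = k := ⟨k.toNat, by omega⟩
    rw [show (2 * (s : ℤ) + n - 1 - x : ℤ) = ((2 * s + n - 1 - x : ℕ) : ℤ) by omega,
      Q172.LwRec.polyOf_act, Q172.LwRec.polyOf_act]
    exact h x (by omega) (by omega)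
  refine ⟨?_, ?_, ?_, ?_, ?_, ?_, ?_⟩
  · intro h
    apply Q172.LwRec.recip_LC hb α β _ _ _ hc hαc d B hBr hβ
    intro K
    obtain ⟨ℓ, s, n, c, hpos, ⟨σ, hσ, hrec⟩, hz, hle⟩ := h (Real.logb ε (max K 1))
    refine ⟨ℓ, s, n, σ, Q172.LwRec.polyOf ℓ c, Q172.LwRec.polyOf_ne ℓ c hpos,
      Q172.LwRec.polyOf_deg ℓ c, hσ, Q172.LwRec.polyOf_reflect ℓ c σ hrec, ?_, hrel ℓ s n c hz⟩
    rw [hn1]
    apply hlog K ℓ (2 * n) _ (hH1 ℓ c hpos)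
    push_cast
    exact hle
  · rintro ⟨κ, hκ, h⟩
    apply hps
    apply Q172.LwRec.recip_rate hb α β _ _ _ hc hαc d B hBr hβ κ hκ
    intro K
    obtain ⟨ℓ, s, n, c, hKn, hpos, ⟨σ, hσ, hrec⟩, hz, hle⟩ := h K
    refine ⟨ℓ, s, n, σ, Q172.LwRec.polyOf ℓ c, Q172.LwRec.polyOf_ne ℓ c hpos,
      Q172.LwRec.polyOf_deg ℓ c, hσ, Q172.LwRec.polyOf_reflect ℓ c σ hrec, hKn, ?_,
      hrel ℓ s n c hz⟩
    rw [hn1]
    exact hle
  · intro h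
    apply Q172.LwRec.mirror_LC hb α β _ _ _ hc hαc d B hBr hβ
    intro K
    obtain ⟨ℓ, s, n, c, σ, hpos, hσ, hz, hle⟩ := h (Real.logb ε (max K 1))
    refine ⟨ℓ, s, n, σ, Q172.LwRec.polyOf ℓ c, Q172.LwRec.polyOf_ne ℓ c hpos,
      Q172.LwRec.polyOf_deg ℓ c, hσ, ?_, hmir ℓ s n c σ hz⟩
    rw [hn1]
    apply hlog K (2 * ℓ) n _ (hH1 ℓ c hpos)
    push_cast
    exact hle
  · rintro ⟨κ, hκ, h⟩
    apply hps
    apply Q172.LwRec.mirror_rate hb α β _ _ _ hc hαc d B hBr hβ κ hκ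
    intro K
    obtain ⟨ℓ, s, n, c, σ, hKn, hpos, hσ, hz, hle⟩ := h K
    refine ⟨ℓ, s, n, σ, Q172.LwRec.polyOf ℓ c, Q172.LwRec.polyOf_ne ℓ c hpos,
      Q172.LwRec.polyOf_deg ℓ c, hσ, hKn, ?_, hmir ℓ s n c σ hz⟩
    rw [hn1]
    push_cast
    exact hle
  · intro θ hθ0 hθ1 h
    have hBnn : 0 ≤ B := le_trans (abs_nonneg _) (hB 0)
    apply Q172.LwRec.rank_LC hb α β _ _ _ hc hαc d (B.toNat + 1) (by omega) (by
      intro k
      have := hB k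
      push_cast
      omega) hβ θ hθ0 hθ1
    intro K
    obtain ⟨N, s, n, hKN, hn, hr⟩ := h K
    refine ⟨N, s, n, hKN, hn, ?_⟩
    have he : (Q172.LwRec.sH d s n N).map (Int.cast : ℤ → ℚ) = symHankel d s n N := by
      ext i j
      simp [Q172.LwRec.sH, symHankel]
    rw [he]
    exact hr
  · intro h
    exact Q172.LwRec.sums_LC hb α β _ _ _ hc hαc d B hBr hβ h
  · intro h
    exact Q172.LwRec.sums_mirror_LC hb α β _ _ _ hc hαc d B hBr hβ h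

end Pool.Agent.Results.MP_0ea415_nt.ReciprocalRecurrences
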